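import Mathlib

namespace Pool.Agent.Results.MP_349597_co.Counter

open SimpleGraph Finset Function

variable {V : Type} [DecidableEq V]

/-- the clique cover number -/
noncomputable def theta (G : SimpleGraph V) : ℕ := sInf {k | ∃ c : V → Fin k, ∀ i, G.IsClique {v | c v = i}}

/-- there is an eternal family of `k`-element dominating sets -/
def Eternal (G : SimpleGraph V) (k : ℕ) : Prop :=
  ∃ F : Set (Finset V), F.Nonempty ∧ ∀ D ∈ F, D.card = k ∧ (∀ v ∉ D, ∃ u ∈ D, G.Adj u v) ∧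
    ∀ v ∉ D, ∃ u ∈ D, G.Adj u v ∧ insert v (D.erase u) ∈ F

/-- the eternal domination number -/
noncomputable def gamma (G : SimpleGraph V) : ℕ := sInf {k | 1 ≤ k ∧ Eternal G k}

lemma et (G : SimpleGraph V) {k : ℕ} (P : (Fin k → V) → Prop) (g) (hg : P g) (inj : ∀ g, P g → Injective g)
    (st : ∀ g, P g → ∀ v, (∀ i, g i ≠ v) → ∃ i, G.Adj (g i) v ∧ P (update g i v)) : Eternal G k := by
  refine ⟨{D | ∃ g, P g ∧ D = univ.image g}, ⟨_, g, hg, rfl⟩, ?_⟩
  rintro _ ⟨g, hg, rfl⟩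
  have : ∀ v ∉ univ.image g, ∃ u ∈ univ.image g, G.Adj u v ∧
      ∃ h, P h ∧ insert v ((univ.image g).erase u) = univ.image h := fun v hv => by
    obtain ⟨i, a, b⟩ := st g hg v (by simpa using hv)
    refine ⟨g i, by simp, a, _, b, Finset.ext fun y => ?_⟩
    simp only [mem_insert, mem_erase, mem_image, mem_univ, true_and]
    constructor
    · rintro (rfl | ⟨c, j, rfl⟩)
      · exact ⟨i, by simp⟩
      · exact ⟨j, update_of_ne (fun e => c (by rw [e])) _ _⟩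
    · rintro ⟨j, rfl⟩
      by_cases c : j = i <;> simp [c, (inj g hg).eq_iff]
  exact ⟨by simp [card_image_of_injective _ (inj g hg)], fun v hv => (this v hv).imp fun _ h => ⟨h.1, h.2.1⟩, this⟩

lemma low [Fintype V] {G : SimpleGraph V} {k : ℕ} (h : Eternal G k) (I : Finset V)
    (hI : ∀ u ∈ I, ∀ v ∈ I, ¬ G.Adj u v) : I.card ≤ k := by
  obtain ⟨F, n, h⟩ := h
  obtain ⟨D, hD, m⟩ := Set.exists_max_image F (fun D => (D ∩ I).card) F.toFinite n
  refine (card_le_card fun v hv => by_contra fun c => ?_).trans (h D hD).1.le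
  obtain ⟨u, -, a, b⟩ := (h D hD).2.2 v c
  have := m _ b
  rw [insert_inter_of_mem hv, erase_inter, erase_eq_of_notMem fun e => hI _ (mem_inter.1 e).2 _ hv a,
    card_insert_of_notMem (by simp [c])] at this
  omega

def r (a b : Fin 15) : Bool := Nat.testBit 3368450625791641610821790458231533756513312611814039953485652065708 (15 * a + b)

def G : SimpleGraph (Fin 15) where
  Adj a b := r a b
  symm := ⟨by decide +kernel⟩
  loopless := ⟨by decide +kernel⟩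

instance : DecidableRel G.Adj := fun a b => inferInstanceAs (Decidable (r a b = true))

def col : Fin 15 → Fin 4 := ![0, 1, 0, 1, 2, 0, 1, 0, 1, 2, 3, 0, 1, 2, 3]

def T (a b c : Fin 15) : Prop := a ≠ b ∧ a ≠ c ∧ b ≠ c ∧ a ≠ 14 ∧ b ≠ 14 ∧ c ≠ 14 ∧ ¬ (r a b ∧ r a c ∧ r b c)

instance (a b c) : Decidable (T a b c) := by unfold T; infer_instance

lemma hT : ∀ a b c, T a b c → ∀ v ≠ 14, a ≠ v → b ≠ v → c ≠ v →
    G.Adj a v ∧ T v b c ∨ G.Adj b v ∧ T a v c ∨ G.Adj c v ∧ T a b v := by decide +kernel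

set_option synthInstance.maxSize 2000 in
lemma no3 : ∀ a b : Fin 3, a ≠ b → ∀ c, b ≠ c → ∀ d, c ≠ d → ∀ e, d ≠ e → e ≠ a → ∀ w, ∀ p ≠ w, p ≠ b → p ≠ e →
    ∀ q ≠ w, q ≠ a → q ≠ c → ∀ s ≠ w, s ≠ b → s ≠ d → ∀ t ≠ w, t ≠ c → t ≠ e → ∀ u ≠ w, u ≠ d → u = a := by
  decide +kernel

theorem result : ∃ (n : ℕ) (G : SimpleGraph (Fin n)), theta G = gamma G ∧
    gamma (G □ (⊤ : SimpleGraph (Fin 2))) < theta (G □ (⊤ : SimpleGraph (Fin 2))) := by
  have hc : ∀ u v, u ≠ v → col u = col v → G.Adj u v := by decide +kernel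
  have hI : ∀ u ∈ ({11, 12, 13, 14} : Finset (Fin 15)), ∀ v ∈ ({11, 12, 13, 14} : Finset (Fin 15)),
    ¬ G.Adj u v := by decide +kernel
  refine ⟨15, G, (?_ : _ = 4).trans (?_ : _ = 4).symm, lt_of_le_of_lt (b := 7) ?_ ?_⟩
  · refine IsLeast.csInf_eq ⟨⟨col, fun i u a v b c => hc u v c (a.trans b.symm)⟩, ?_⟩
    rintro k ⟨c, h⟩
    simpa using card_le_card_of_injOn (t := univ) c (by simp) fun u a v b e =>
      by_contra fun n => hI u a v b (h _ e rfl n)
  · refine IsLeast.csInf_eq ⟨⟨by simp, et G (fun g => ∀ i, col (g i) = i) ![0, 1, 4, 10] (by decide)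
      (fun g h => LeftInverse.injective h) fun g h v n => ⟨col v, hc _ _ (n _) (h _), fun i => ?_⟩⟩,
      fun k h => low h.2 _ hI⟩
    by_cases c : i = col v
    · simp [c]
    · simp [update_of_ne c, h]
  · refine Nat.sInf_le ⟨by simp, et _ (fun g => T (g 0).1 (g 1).1 (g 2).1 ∧ T (g 3).1 (g 4).1 (g 5).1 ∧
      (g 0).2 = 0 ∧ (g 1).2 = 0 ∧ (g 2).2 = 0 ∧ (g 3).2 = 1 ∧ (g 4).2 = 1 ∧ (g 5).2 = 1 ∧ (g 6).1 = 14)
      ![(11, 0), (12, 0), (13, 0), (11, 1), (12, 1), (13, 1), (14, 0)] (by decide +kernel) ?_ ?_⟩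
    · rintro g ⟨⟨a1, a2, a3, a4, a5, a6, -⟩, ⟨b1, b2, b3, b4, b5, b6, -⟩, c0, c1, c2, c3, c4, c5, c6⟩ i j e
      have e1 := congrArg Prod.fst e; have e2 := congrArg Prod.snd e
      fin_cases i <;> fin_cases j <;> simp at e1 e2 ⊢ <;> simp_all
    · rintro g ⟨a, b, c0, c1, c2, c3, c4, c5, c6⟩ ⟨w, l⟩ n
      by_cases c : w = 14
      · exact ⟨6, by simpa [c, c6, Prod.ext_iff] using n 6, by simp [*]⟩
      have n0 := n 0; have n1 := n 1; have n2 := n 2; have n3 := n 3; have n4 := n 4; have n5 := n 5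
      fin_cases l <;> simp [Prod.ext_iff, c0, c1, c2, c3, c4, c5] at n0 n1 n2 n3 n4 n5
      · rcases hT _ _ _ a w c n0 n1 n2 with h | h | h
        exacts [⟨0, by simp [*]⟩, ⟨1, by simp [*]⟩, ⟨2, by simp [*]⟩]
      · rcases hT _ _ _ b w c n3 n4 n5 with h | h | h
        exacts [⟨3, by simp [*]⟩, ⟨4, by simp [*]⟩, ⟨5, by simp [*]⟩]
  · refine Nat.succ_le_iff.1 (le_csInf ?_ ?_)
    · exact ⟨15 * 2, finProdFinEquiv, fun i u a v b c => (c (by simpa using a.trans b.symm)).elim⟩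
    rintro k ⟨c, h⟩
    by_contra hk
    let S := (({11, 12, 13, 14} : Finset (Fin 15)).image fun v => c (v, 0))ᶜ
    have hS : S.card ≤ 3 := by
      rw [card_compl, card_image_of_injOn fun u a v b e => by_contra fun n =>
        hI u a v b (by simpa [n] using h _ e rfl (by simpa))]
      simp; omega
    obtain ⟨e⟩ := Function.Embedding.nonempty_of_card_le (α := S) (β := Fin 3) (by simpa)
    have m : ∀ v : Fin 11, c (v.castLE (by simp), 1) ∈ S := fun v => by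
      simp only [S, mem_compl, mem_image, not_exists, not_and]
      intro u hu e
      have := h _ e rfl (by simp)
      simp at this; clear e; revert this hu; revert u v; decide
    have H : ∀ u v : Fin 11, u ≠ v ∧ ¬ G.Adj (u.castLE (by simp)) (v.castLE (by simp)) →
        e ⟨_, m u⟩ ≠ e ⟨_, m v⟩ := fun u v a b =>
      a.2 (by simpa using h _ (Subtype.ext_iff.1 (e.injective b)) rfl (by simpa using a.1))
    refine H 9 0 ?_ (no3 _ _ (H 0 1 ?_) _ (H 1 2 ?_) _ (H 2 3 ?_) _ (H 3 4 ?_) (H 4 0 ?_) _ _ (H 5 10 ?_)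
      (H 5 1 ?_) (H 5 4 ?_) _ (H 6 10 ?_) (H 6 0 ?_) (H 6 2 ?_) _ (H 7 10 ?_) (H 7 1 ?_) (H 7 3 ?_) _
      (H 8 10 ?_) (H 8 2 ?_) (H 8 4 ?_) _ (H 9 10 ?_) (H 9 3 ?_)) <;> decide +kernel

end Pool.Agent.Results.MP_349597_co.Counter
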